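import Pool.Agent.W805.LR.Stm4

set_option autoImplicit false

/-! PD-CR: recursion for `favg`. -/

namespace Pool.Agent.W505.PD.CR

open Finset Equiv
open Pool.Agent.W805.PD

variable {V : Type} [Fintype V] [DecidableEq V]

theorem rem_apply (h : Perm V) (a x : V) : rem h a x = swap a (h a) (h x) := rfl

theorem rem_self (h : Perm V) (a : V) : rem h a a = a := by
  rw [rem_apply, swap_apply_right]

theorem rem_of_ne (h : Perm V) (a x : V) (h1 : h x ≠ a) (h2 : x ≠ a) : rem h a x = h x := by
  rw [rem_apply, swap_apply_of_ne_of_ne h1 (fun hc => h2 (h.injective hc))]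

theorem foldl_rem (l : List V) : ∀ (h : Perm V) (a : V), (∀ b ∈ l, b ≠ a ∧ b ≠ h a) →
    (l.foldl rem h) a = h a := by
  induction l with
  | nil => intro h a _; rfl
  | cons b l ih =>
      intro h a hl
      have hb := hl b (List.mem_cons_self)
      have h1 : rem h b a = h a := rem_of_ne h b a hb.2.symm hb.1.symm
      rw [List.foldl_cons, ih (rem h b) a ?_, h1]
      intro c hc
      rw [h1]
      exact hl c (List.mem_cons_of_mem _ hc)

theorem tr_apply_mem (h : Perm V) (A : Finset V) (a : V) (ha : a ∈ A) (hha : h a ∈ A) :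
    tr h A a = h a := by
  apply foldl_rem
  intro b hb
  rw [Finset.mem_toList, Finset.mem_compl] at hb
  exact ⟨fun hc => hb (hc ▸ ha), fun hc => hb (hc ▸ hha)⟩

theorem mem_matchings {E : Finset V} {α : Perm V} (h : α ∈ matchings E) (x : V) (hx : x ∉ E) :
    α x = x := by
  have h1 := (Finset.mem_filter.1 h).2.2
  rw [← h1] at hx
  exact Perm.notMem_support.1 hx

theorem avgM_congr {E : Finset V} {F G : Perm V → ℝ} (h : ∀ α ∈ matchings E, F α = G α) :
    avgM E F = avgM E G := by
  unfold avgM
  rw [Finset.sum_congr rfl h]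

theorem main (htr : S_tr) (hma : S_match) : S_rec := by
  intro V _ _ ρ E S σ hES hE hρ hσ
  obtain ⟨-, t2, -, t4, t5, t6, t7, t8, -⟩ := htr V
  obtain ⟨-, -, m3, -⟩ := hma
  have hdisj : ∀ x ∈ E, x ∉ S := fun x hx hxS => (Finset.disjoint_left.1 hES) hx hxS
  refine ⟨⟨?_, ?_⟩, ?_, ?_, ?_, ?_, ?_⟩
  · unfold favg avgM
    refine div_nonneg (Finset.sum_nonneg fun α _ => ?_) (Nat.cast_nonneg _)
    split_ifs <;> norm_num
  · unfold favg avgM
    refine div_le_one_of_le₀ ?_ (Nat.cast_nonneg _)
    calc ∑ α ∈ matchings E, (if tr (α * ρ) S = σ then (1 : ℝ) else 0)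
        ≤ ∑ α ∈ matchings E, (1 : ℝ) := Finset.sum_le_sum fun α _ => by split_ifs <;> norm_num
      _ = _ := by rw [Finset.sum_const, nsmul_eq_mul, mul_one]
  · intro e he
    unfold favg
    rw [m3 V E e _ hE he]
    congr 1
    refine Finset.sum_congr rfl fun s hs => ?_
    apply avgM_congr
    intro α hα
    have hse : s ≠ e := Finset.ne_of_mem_erase hs
    have hsE : s ∈ E := Finset.mem_of_mem_erase hs
    have hαe : α e = e := mem_matchings hα e (by
      rw [Finset.mem_erase, Finset.mem_erase]
      rintro ⟨-, h, -⟩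
      exact h rfl)
    have hαs : α s = s := mem_matchings hα s (by
      rw [Finset.mem_erase]
      rintro ⟨h, -⟩
      exact h rfl)
    have hcomm : swap e s * α = α * swap e s := by
      have h1 := Equiv.mul_swap_eq_swap_mul α e s
      rw [hαe, hαs] at h1
      exact h1.symm
    have hB : (E.erase e).erase s ∪ S = ((E ∪ S).erase e).erase s := by
      ext x
      simp only [Finset.mem_union, Finset.mem_erase]
      constructor
      · rintro (⟨h1, h2, h3⟩ | h)
        · exact ⟨h1, h2, Or.inl h3⟩
        · exact ⟨fun hc => hdisj s hsE (hc ▸ h), fun hc => hdisj e he (hc ▸ h), Or.inr h⟩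
      · rintro ⟨h1, h2, h3 | h3⟩
        · exact Or.inl ⟨h1, h2, h3⟩
        · exact Or.inr h3
    have hstep : tr (swap e s * ρ) ((E.erase e).erase s ∪ S) = stepP ρ e s := by
      rw [hB, t7, t7, t4 (swap e s * ρ) (E ∪ S)]
      · rfl
      · intro x hx
        rw [Finset.mem_union, not_or] at hx
        rw [Perm.mul_apply, hρ x hx.1 hx.2, swap_apply_of_ne_of_ne]
        · exact fun hc => hx.1 (hc ▸ he)
        · exact fun hc => hx.1 (hc ▸ hsE)
    have hkey : tr (swap e s * α * ρ) S = tr (α * stepP ρ e s) S := by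
      rw [hcomm, mul_assoc, ← t8 (α * (swap e s * ρ)) S ((E.erase e).erase s ∪ S)
        Finset.subset_union_right, t6 (swap e s * ρ) α ((E.erase e).erase s ∪ S), hstep]
      intro x hx
      exact mem_matchings hα x fun hc => hx (Finset.mem_union_left _ hc)
    rw [hkey]
  · intro a ha hρa
    have hfix : ∀ α ∈ matchings E, ∀ x ∈ S, α x = x := fun α hα x hx =>
      mem_matchings hα x fun hc => hdisj x hc hx
    have hval : ∀ α ∈ matchings E, tr (α * ρ) S a = ρ a := by
      intro α hα
      have h1 : (α * ρ) a = ρ a := hfix α hα _ hρa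
      rw [tr_apply_mem (α * ρ) S a ha (by rw [h1]; exact hρa), h1]
    split_ifs with hσa
    · unfold favg
      apply avgM_congr
      intro α hα
      have h1 : rem (tr (α * ρ) S) a = tr (α * rem ρ a) (S.erase a) := by
        rw [← t7, ← t2 ρ α a (hfix α hα a ha)]
        have h2 : tr (α * ρ) (Finset.univ.erase a) = rem (α * ρ) a := by
          rw [t7, t4 _ Finset.univ (fun x hx => absurd (Finset.mem_univ x) hx)]
        rw [← h2, t8]
        intro x hx
        rw [Finset.mem_erase] at hx ⊢
        exact ⟨hx.1, Finset.mem_univ _⟩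
      have h3 : tr (α * ρ) S = σ ↔ tr (α * rem ρ a) (S.erase a) = rem σ a := by
        rw [← h1]
        constructor
        · intro h
          rw [h]
        · intro h
          unfold rem at h
          rw [hval α hα, hσa] at h
          exact mul_left_cancel h
      by_cases hc : tr (α * ρ) S = σ
      · rw [if_pos hc, if_pos (h3.1 hc)]
      · rw [if_neg hc, if_neg fun hc' => hc (h3.2 hc')]
    · unfold favg
      rw [avgM_congr (G := fun _ => 0)]
      · unfold avgM
        simp
      · intro α hα
        rw [if_neg]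
        intro hc
        apply hσa
        rw [← hc, hval α hα]
  · intro a ha hρa hother
    constructor
    · intro x hx
      rw [Finset.mem_erase] at hx
      have h1 := hother x hx.2 hx.1
      rw [rem_of_ne ρ a x (fun hc => h1 (hc ▸ ha)) hx.1]
      exact fun hc => h1 (Finset.mem_of_mem_erase hc)
    · unfold Wc
      apply Finset.card_le_card
      intro x hx
      rw [Finset.mem_filter] at hx ⊢
      obtain ⟨hxE, hx2, hx3⟩ := hx
      have hxS := hdisj x hxE
      have hxa : x ≠ a := fun hc => hxS (hc ▸ ha)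
      have h1 : ρ x ≠ a := by
        intro hc
        apply hx3
        rw [rem_apply, hc, swap_apply_left, Finset.mem_erase]
        refine ⟨fun hc2 => hxa ?_, hρa⟩
        apply ρ.injective
        rw [hc, hc2]
      have h2 : rem ρ a x = ρ x := rem_of_ne ρ a x h1 hxa
      rw [h2] at hx2 hx3
      refine ⟨hxE, ?_, fun hc => hx3 (Finset.mem_erase.2 ⟨h1, hc⟩)⟩
      rw [rem_apply] at hx2
      have h4 : ρ (ρ x) = swap a (ρ a) x := by
        rw [← hx2, swap_apply_self, hx2]
      rw [h4, swap_apply_of_ne_of_ne hxa fun hc => hxS (hc ▸ hρa)]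
  · intro a ha x hx
    by_cases hxa : x = a
    · rw [hxa, rem_self]
    · have hxS : x ∉ S := fun hc => hx (Finset.mem_erase.2 ⟨hxa, hc⟩)
      rw [rem_of_ne σ a x (by rw [hσ x hxS]; exact hxa) hxa, hσ x hxS]
  · intro a ha hρa x hxE hx
    by_cases hxa : x = a
    · rw [hxa, rem_self]
    · have hxS : x ∉ S := fun hc => hx (Finset.mem_erase.2 ⟨hxa, hc⟩)
      rw [rem_of_ne ρ a x (by rw [hρ x hxE hxS]; exact hxa) hxa, hρ x hxE hxS]

end Pool.Agent.W505.PD.CR
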